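import Mathlib
import Pool.Agent.Y19.TP.Stm

set_option autoImplicit false

/-! Project TP (helper19), job VAR: finitely many polynomials with given tail and period. -/

namespace Pool.Agent.Y970.TP

open Polynomial Function Pool.Agent.Y19.TP

/-- A multiset with `n` elements is enumerated by `Fin n`. -/
theorem enum_multiset {U : Type} (s : Multiset U) (n : ℕ) (h : Multiset.card s = n) :
    ∃ r : Fin n → U, ∀ (A : Type) [CommMonoid A] (g : U → A),
      (s.map g).prod = ∏ i, g (r i) := by
  subst h
  induction s using Quotient.inductionOn with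
  | _ l =>
    refine ⟨fun i => l.get i, fun A _ g => ?_⟩
    have h1 : (l.map g).prod = ∏ i : Fin l.length, g (l.get i) := by
      conv_lhs => rw [← List.ofFn_get l, List.map_ofFn, List.prod_ofFn]
      rfl
    have h2 : (Multiset.map g (Quotient.mk _ l : Multiset U)).prod = (l.map g).prod := by
      change (Multiset.map g (l : Multiset U)).prod = _
      rw [Multiset.map_coe, Multiset.prod_coe]
    rw [h2, h1]
    rfl

/-- The polynomial with given coefficients. -/
noncomputable def fx {R : Type} [CommRing R] {d : ℕ} (a : Fin d → R) : R[X] :=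
  X ^ d + ∑ m : Fin d, C (a m) * X ^ (m : ℕ)

theorem fx_low {R : Type} [CommRing R] {d : ℕ} (a : Fin d → R) :
    (∑ m : Fin d, C (a m) * X ^ (m : ℕ)).degree < (d : WithBot ℕ) := by
  exact Polynomial.degree_sum_fin_lt a

theorem fx_monic {R : Type} [CommRing R] {d : ℕ} (a : Fin d → R) : (fx a).Monic := by
  unfold fx
  exact Polynomial.monic_X_pow_add (fx_low a)

theorem fx_natDegree {R : Type} [CommRing R] [Nontrivial R] {d : ℕ} (a : Fin d → R) :
    (fx a).natDegree = d := by
  unfold fx
  rw [Polynomial.natDegree_add_eq_left_of_degree_lt, Polynomial.natDegree_X_pow]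
  rw [Polynomial.degree_X_pow]
  exact fx_low a

theorem fx_coeff {R : Type} [CommRing R] {d : ℕ} (a : Fin d → R) (m : Fin d) :
    (fx a).coeff m = a m := by
  unfold fx
  rw [Polynomial.coeff_add, Polynomial.coeff_X_pow, if_neg (by omega), zero_add,
    Polynomial.finsetSum_coeff]
  rw [Finset.sum_eq_single m]
  · simp
  · intro b _ hb
    rw [Polynomial.coeff_C_mul_X_pow, if_neg]
    intro h
    exact hb (Fin.ext h.symm)
  · simp

theorem fx_map {R S : Type} [CommRing R] [CommRing S] {d : ℕ} (a : Fin d → R) (φ : R →+* S) :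
    (fx a).map φ = fx (fun m => φ (a m)) := by
  unfold fx
  simp [Polynomial.map_sum]

theorem fx_self {R : Type} [CommRing R] {d : ℕ} (f : R[X]) (hf : f.Monic) (hd : f.natDegree = d) :
    fx (fun m : Fin d => f.coeff m) = f := by
  subst hd
  conv_rhs => rw [hf.as_sum]
  unfold fx
  rw [Fin.sum_univ_eq_sum_range (fun i => C (f.coeff i) * X ^ i)]

theorem hom_iterate {R S : Type} [CommRing R] [CommRing S] (φ : R →+* S) (P : R[X]) (n : ℕ)
    (z : R) : φ ((fun w => P.eval w)^[n] z) = (fun w => (P.map φ).eval w)^[n] (φ z) := by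
  have h : Function.Semiconj φ (fun w => P.eval w) (fun w => (P.map φ).eval w) := by
    intro w
    simp only [Polynomial.eval_map, Polynomial.eval₂_at_apply]
  exact (h.iterate_right n) z

theorem finite_orbit {K : Type} (F : K → K) (z : K) (T N : ℕ) (hN : 1 ≤ N)
    (h : F^[T + N] z = F^[T] z) : (Set.range fun n : ℕ => F^[n] z).Finite := by
  have key : ∀ n : ℕ, ∃ m < T + N, F^[n] z = F^[m] z := by
    intro n
    induction n using Nat.strong_induction_on with
    | _ n ih =>
      rcases Nat.lt_or_ge n (T + N) with h1 | h1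
      · exact ⟨n, h1, rfl⟩
      · obtain ⟨m, hm, hm'⟩ := ih (n - N) (by omega)
        refine ⟨m, hm, ?_⟩
        rw [← hm']
        have e1 : n = (n - (T + N)) + (T + N) := by omega
        have e2 : n - N = (n - (T + N)) + T := by omega
        rw [e2]
        conv_lhs => rw [e1]
        rw [Function.iterate_add_apply, h, ← Function.iterate_add_apply]
  refine Set.Finite.subset ((Set.finite_lt_nat (T + N)).image fun m => F^[m] z) ?_
  rintro _ ⟨n, rfl⟩
  obtain ⟨m, hm, hm'⟩ := key n
  exact ⟨m, hm, hm'.symm⟩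

/-- Job VAR. -/
theorem t_VAR : NOETH → INT → VAR := by
  intro hNo hInt U _ _ _ _ d hd hTame hunb T N hN
  have hd0 : (d : U) ≠ 0 := by
    have : d ≠ 0 := by omega
    exact_mod_cast this
  let σ : Type := Fin d ⊕ Fin (d - 1)
  let Φ : (MvPolynomial σ U)[X] := fx (fun m : Fin d => MvPolynomial.X (Sum.inl m))
  let P : (MvPolynomial σ U)[X] := derivative Φ -
    C (MvPolynomial.C (d : U)) * ∏ i : Fin (d - 1), (X - C (MvPolynomial.X (Sum.inr i)))
  let S : Set (MvPolynomial σ U) := {q | (∃ n, q = P.coeff n) ∨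
    q = MvPolynomial.X (Sum.inl ⟨d - 1, by omega⟩) ∨
    ∃ i : Fin (d - 1), q = (fun w => Φ.eval w)^[T + N] (MvPolynomial.X (Sum.inr i)) -
      (fun w => Φ.eval w)^[T] (MvPolynomial.X (Sum.inr i))}
  have hΦ : ∀ x : σ → U, Φ.map (MvPolynomial.eval x) = fx (fun m : Fin d => x (Sum.inl m)) := by
    intro x
    rw [fx_map]
    simp
  have hP : ∀ x : σ → U, P.map (MvPolynomial.eval x) =
      derivative (fx (fun m : Fin d => x (Sum.inl m))) -
        C (d : U) * ∏ i : Fin (d - 1), (X - C (x (Sum.inr i))) := by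
    intro x
    simp only [P, Polynomial.map_sub, Polynomial.map_mul, Polynomial.map_prod, Polynomial.map_C,
      Polynomial.map_X, MvPolynomial.eval_C, MvPolynomial.eval_X, ← Polynomial.derivative_map]
    rw [hΦ]
  have hmem : ∀ x : σ → U, (∀ q ∈ S, MvPolynomial.eval x q = 0) ↔
      (derivative (fx (fun m : Fin d => x (Sum.inl m))) =
        C (d : U) * ∏ i : Fin (d - 1), (X - C (x (Sum.inr i)))) ∧
      x (Sum.inl ⟨d - 1, by omega⟩) = 0 ∧
      ∀ i : Fin (d - 1), (fun w => (fx (fun m : Fin d => x (Sum.inl m))).eval w)^[T + N]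
          (x (Sum.inr i)) =
        (fun w => (fx (fun m : Fin d => x (Sum.inl m))).eval w)^[T] (x (Sum.inr i)) := by
    intro x
    constructor
    · intro h
      refine ⟨?_, ?_, ?_⟩
      · rw [← sub_eq_zero, ← hP]
        ext n
        rw [Polynomial.coeff_map, Polynomial.coeff_zero]
        exact h _ (Or.inl ⟨n, rfl⟩)
      · have := h _ (Or.inr (Or.inl rfl))
        rwa [MvPolynomial.eval_X] at this
      · intro i
        have := h _ (Or.inr (Or.inr ⟨i, rfl⟩))
        rw [map_sub, hom_iterate, hom_iterate, hΦ, MvPolynomial.eval_X, sub_eq_zero] at this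
        exact this
    · rintro ⟨h1, h2, h3⟩ q (⟨n, rfl⟩ | rfl | ⟨i, rfl⟩)
      · rw [← Polynomial.coeff_map, hP, h1, sub_self, Polynomial.coeff_zero]
      · rw [MvPolynomial.eval_X]
        exact h2
      · rw [map_sub, hom_iterate, hom_iterate, hΦ, MvPolynomial.eval_X, sub_eq_zero]
        exact h3 i
  have hfin := hNo σ U hunb S 1 (by
    intro x hx
    obtain ⟨h1, h2, h3⟩ := (hmem x).1 hx
    set f : U[X] := fx (fun m : Fin d => x (Sum.inl m)) with hf
    have hcrit : ∀ z : U, (derivative f).eval z = 0 ↔ ∃ i : Fin (d - 1), z = x (Sum.inr i) := by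
      intro z
      rw [h1, Polynomial.eval_mul, Polynomial.eval_C, Polynomial.eval_prod]
      constructor
      · intro h
        rcases mul_eq_zero.1 h with h | h
        · exact absurd h hd0
        · obtain ⟨i, -, hi⟩ := Finset.prod_eq_zero_iff.1 h
          refine ⟨i, ?_⟩
          simpa [sub_eq_zero] using hi
      · rintro ⟨i, rfl⟩
        rw [Finset.prod_eq_zero (Finset.mem_univ i) (by simp), mul_zero]
    have hI := hInt U d hd hTame f (fx_monic _) (fx_natDegree _)
      (by rw [← h2]; exact fx_coeff (fun m : Fin d => x (Sum.inl m)) ⟨d - 1, by omega⟩)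
      (by
        intro z hz
        obtain ⟨i, rfl⟩ := (hcrit z).1 hz
        exact finite_orbit _ _ T N hN (h3 i))
    rintro (m | i)
    · have := hI.1 (m : ℕ)
      rwa [hf, fx_coeff] at this
    · exact hI.2 _ ((hcrit _).2 ⟨i, rfl⟩))
  refine Set.Finite.subset (hfin.image fun x => fx (fun m : Fin d => x (Sum.inl m))) ?_
  rintro f ⟨hf1, hf2, hf3, hf4⟩
  have hder : (derivative f).natDegree = d - 1 := by
    rw [Polynomial.natDegree_derivative, hf2]
  have hlead : (derivative f).leadingCoeff = (d : U) := by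
    rw [Polynomial.leadingCoeff, hder, Polynomial.coeff_derivative]
    have e : d - 1 + 1 = d := by omega
    rw [e]
    have h1 : f.coeff d = 1 := by
      have := hf1.coeff_natDegree
      rwa [hf2] at this
    rw [h1, one_mul]
    have : ((d - 1 : ℕ) : U) + 1 = ((d - 1 + 1 : ℕ) : U) := by push_cast; ring
    rw [this, e]
  have hsp : (derivative f).Splits := IsAlgClosed.splits _
  have hcard : Multiset.card (derivative f).roots = d - 1 := by
    rw [← hder]
    exact hsp.natDegree_eq_card_roots.symm
  obtain ⟨r, hr⟩ := enum_multiset (derivative f).roots (d - 1) hcard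
  have hprod : derivative f = C (d : U) * ∏ i : Fin (d - 1), (X - C (r i)) := by
    conv_lhs => rw [hsp.eq_prod_roots]
    rw [hlead, hr]
  let x : σ → U := Sum.elim (fun m : Fin d => f.coeff m) r
  have hx : fx (fun m : Fin d => x (Sum.inl m)) = f := fx_self f hf1 hf2
  refine ⟨x, ?_, hx⟩
  refine (hmem x).2 ⟨?_, ?_, ?_⟩
  · rw [hx]
    exact hprod
  · exact hf3
  · intro i
    rw [hx]
    refine hf4 _ ?_
    rw [hprod, Polynomial.eval_mul, Polynomial.eval_prod,
      Finset.prod_eq_zero (Finset.mem_univ i) (by simp [x]), mul_zero]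

end Pool.Agent.Y970.TP
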